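import Pool.Agent.Lib.MP_cbe697_nt.Main

set_option autoImplicit false

namespace Pool.Agent.Results.MP_cbe697_nt.FullProof

theorem result (m n r : ℕ) (hm : 1 ≤ m) (hn : 1 ≤ n) :
    ((m : ℤ) * n) ∣ ∑ k ∈ Finset.range n, (-1 : ℤ) ^ (r * k) * (((m : ℤ) + 1) * k + m) *
      ∑ f ∈ Finset.Nat.antidiagonalTuple m k, (Nat.multinomial Finset.univ f : ℤ) ^ r :=
  Pool.Agent.Lib.MP_cbe697_nt.main m n r hm hn

end Pool.Agent.Results.MP_cbe697_nt.FullProof
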